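import Pool.Agent.W424.SC.Cond

/-!
# The shortest crossing of critical bond percolation on the square lattice

Critical bond percolation on `ℤ²` in the box `[0, n]²`: given that there is an open left-right
crossing, the length of the shortest one has conditional expectation at most `K n ^ (4/3)`.

Proof: among the open edges next to the closed dual clusters of the bottom side, take a crossing
with as few edges as possible. By planar duality each of its edges has three arms (dual closed, open,
open) up to the boundary of the box; this has probability at most `C r ^ (-2/3)` at distance `r` from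
the boundary (`Pool.Agent.W424.KI.u3` with duality, the three-arm bound in all annuli of `ℤ²` proved
for `MP_6bd702_pr.OuterBoundaryUpper`).
-/

set_option autoImplicit false

namespace Pool.Agent.Results.MP_e4d2a2_pr.ShortestCrossing

open Finset

/-- The edges of the square lattice: `(x, y, true)` is the edge from `(x, y)` to `(x + 1, y)` and
`(x, y, false)` is the edge from `(x, y)` to `(x, y + 1)`. -/
abbrev Edge := ℤ × ℤ × Bool

/-- First endpoint of an edge. -/
def fst (e : Edge) : ℤ × ℤ := (e.1, e.2.1)

/-- Second endpoint of an edge. -/
def snd (e : Edge) : ℤ × ℤ := if e.2.2 = true then (e.1 + 1, e.2.1) else (e.1, e.2.1 + 1)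

/-- The box `{0, …, n}²`. -/
noncomputable def box (n : ℕ) : Finset (ℤ × ℤ) := Finset.Icc (0 : ℤ) n ×ˢ Finset.Icc (0 : ℤ) n

/-- The edges with both endpoints in the box. -/
noncomputable def edges (n : ℕ) : Finset Edge :=
  ((Finset.Icc (0 : ℤ) n) ×ˢ ((Finset.Icc (0 : ℤ) n) ×ˢ Finset.univ)).filter
    (fun e => fst e ∈ box n ∧ snd e ∈ box n)

/-- The graph of the open edges. -/
def openGraph (F : Finset Edge) : SimpleGraph (ℤ × ℤ) :=
  SimpleGraph.fromRel (fun u w => ∃ e ∈ F, fst e = u ∧ snd e = w)

/-- The length (number of edges) of the shortest open path from the left side to the right side of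
the box, for the set `F` of open edges; `0` if there is no such path. -/
noncomputable def shortest (n : ℕ) (F : Finset Edge) : ℕ :=
  sInf {m | ∃ y y' : ℤ, (0 ≤ y ∧ y ≤ n) ∧ (0 ≤ y' ∧ y' ≤ n) ∧
    ∃ p : (openGraph F).Walk (0, y) ((n : ℤ), y'), p.length = m}

/-- Some open path of the box joins its left side to its right side. -/
def Crosses (n : ℕ) (F : Finset Edge) : Prop :=
  ∃ y y' : ℤ, (0 ≤ y ∧ y ≤ n) ∧ (0 ≤ y' ∧ y' ≤ n) ∧
    (openGraph F).Reachable (0, y) ((n : ℤ), y')

open Classical in
/-- Conditional expectation given an open crossing, for critical bond percolation in the box: all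
sets `F` of open edges are equally likely, and we take the average over those with a crossing. -/
noncomputable def expectCross (n : ℕ) (X : Finset Edge → ℝ) : ℝ :=
  (∑ F ∈ (edges n).powerset.filter (Crosses n), X F) /
    (((edges n).powerset.filter (Crosses n)).card : ℝ)

theorem result : ∃ K : ℝ, 0 < K ∧ ∀ n : ℕ, 1 ≤ n →
    expectCross n (fun F => (shortest n F : ℝ)) ≤ K * (n : ℝ) ^ (4 / 3 : ℝ) :=
  Pool.Agent.W424.SC.main2

end Pool.Agent.Results.MP_e4d2a2_pr.ShortestCrossing
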